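import Pool.Agent.helper5.BEY.SpecA
import Pool.Agent.helper31.LDH.INT
set_option autoImplicit false
open Complex MeasureTheory
namespace Pool.Agent.BEY

theorem GMS_dbl (K : ℕ) (f : ℕ → ℕ → ℂ) (hf : ∀ m n, f n m = (starRingEnd ℂ) (f m n)) :
    ∑ m ∈ Finset.Icc 1 K, ∑ n ∈ Finset.Icc 1 K, f m n =
      (∑ n ∈ Finset.Icc 1 K, f n n) +
       ((∑ m ∈ Finset.Icc 1 K, ∑ n ∈ Finset.Icc 1 K, (if n < m then f m n else 0)) +
       (starRingEnd ℂ) (∑ m ∈ Finset.Icc 1 K, ∑ n ∈ Finset.Icc 1 K, (if n < m then f m n else 0))) := by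
  have h1 : ∀ m ∈ Finset.Icc 1 K, ∑ n ∈ Finset.Icc 1 K, f m n = f m m +
      (∑ n ∈ Finset.Icc 1 K, (if n < m then f m n else 0) +
        ∑ n ∈ Finset.Icc 1 K, (if m < n then f m n else 0)) := by
    intro m hm
    have h2 : ∀ n ∈ Finset.Icc 1 K, f m n = (if n = m then f m m else 0) +
        ((if n < m then f m n else 0) + (if m < n then f m n else 0)) := by
      intro n _
      rcases lt_trichotomy n m with h | h | h
      · rw [if_neg (by omega), if_pos h, if_neg (by omega)]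
        ring
      · rw [if_pos h, if_neg (by omega), if_neg (by omega), h]
        ring
      · rw [if_neg (by omega), if_neg (by omega), if_pos h]
        ring
    rw [Finset.sum_congr rfl h2, Finset.sum_add_distrib, Finset.sum_add_distrib,
      Finset.sum_ite_eq' (Finset.Icc 1 K) m (fun _ => f m m), if_pos hm]
  rw [Finset.sum_congr rfl h1, Finset.sum_add_distrib, Finset.sum_add_distrib]
  congr 2
  rw [map_sum, Finset.sum_comm]
  refine Finset.sum_congr rfl fun m _ => ?_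
  rw [map_sum]
  refine Finset.sum_congr rfl fun n _ => ?_
  split_ifs
  · exact hf m n
  · simp

theorem GMS_off (w : ℝ → ℝ) (M G t : ℝ) (hw : Wc 1 w) (hM : 1 ≤ M) :
    ∑ m ∈ Finset.Icc 1 ⌊2 * M⌋₊, ∑ n ∈ Finset.Icc 1 ⌊2 * M⌋₊,
      (if n < m then ((w ((m : ℝ) / M) * w ((n : ℝ) / M) : ℝ) : ℂ) *
        (((Real.exp (-(G * (Real.log m - Real.log n)) ^ 2 / 4) : ℝ) : ℂ) *
          Complex.exp (-((t : ℂ) * ((Real.log m - Real.log n : ℝ) : ℂ) * I))) else 0) =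
      ∑ h ∈ Finset.Ico 1 (⌊M⌋₊ + 1), ∑ n ∈ Finset.range (⌈4 * M⌉₊ + 1),
        ((Wz w M h ((n : ℝ) / h) : ℝ) : ℂ) * (((gz G ((n : ℝ) / h) : ℝ) : ℂ) * E t ((n : ℝ) / h)) := by
  have hM0 : 0 < M := by linarith
  have hsup : ∀ n : ℕ, w ((n : ℝ) / M) ≠ 0 → M ≤ n ∧ (n : ℝ) ≤ 2 * M := by
    intro n hn
    by_contra hc
    apply hn
    apply hw.2.1
    rw [Set.mem_Icc, le_div_iff₀ hM0, div_le_iff₀ hM0, one_mul]
    exact hc
  have hWz : ∀ h n : ℕ, 1 ≤ h → Wz w M h ((n : ℝ) / h) = w ((n : ℝ) / M) * w (((n + h : ℕ) : ℝ) / M) := by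
    intro h n hh
    have hh0 : (0 : ℝ) < h := by exact_mod_cast hh
    unfold Wz
    have h1 : (h : ℝ) * ((n : ℝ) / h) = n := by field_simp
    have h2 : (h : ℝ) * ((n : ℝ) / h + 1) = ((n + h : ℕ) : ℝ) := by
      push_cast
      field_simp
    rw [h1, h2]
  have hel : ∀ h n : ℕ, 1 ≤ h → 1 ≤ n → el ((n : ℝ) / h) = Real.log ((n + h : ℕ) : ℝ) - Real.log n := by
    intro h n hh hn
    have hh0 : (0 : ℝ) < h := by exact_mod_cast hh
    have hn0 : (0 : ℝ) < n := by exact_mod_cast hn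
    unfold el
    rw [← Real.log_div (by positivity) hn0.ne']
    congr 1
    push_cast
    field_simp
  rw [← Finset.sum_product', ← Finset.sum_product']
  refine Finset.sum_bij_ne_zero (fun a _ _ => (a.1 - a.2, a.2)) ?_ ?_ ?_ ?_
  · rintro ⟨m, n⟩ h1 h2
    dsimp only at h1 h2 ⊢
    have h3 : n < m := by
      by_contra hc
      rw [if_neg hc] at h2
      exact h2 rfl
    rw [if_pos h3] at h2
    have h4 := left_ne_zero_of_mul h2
    have h5 : w ((m : ℝ) / M) * w ((n : ℝ) / M) ≠ 0 := by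
      intro h
      apply h4
      rw [h, Complex.ofReal_zero]
    have h6 := hsup m (left_ne_zero_of_mul h5)
    have h7 := hsup n (right_ne_zero_of_mul h5)
    rw [Finset.mem_product, Finset.mem_Ico, Finset.mem_range]
    refine ⟨⟨by show 1 ≤ m - n; omega, ?_⟩, ?_⟩
    · show m - n < ⌊M⌋₊ + 1
      apply Nat.lt_succ_of_le
      apply Nat.le_floor
      rw [Nat.cast_sub h3.le]
      linarith
    · show n < ⌈4 * M⌉₊ + 1
      apply Nat.lt_succ_of_le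
      have h8 : (n : ℝ) ≤ ⌈4 * M⌉₊ := (by linarith : (n : ℝ) ≤ 4 * M).trans (Nat.le_ceil _)
      exact_mod_cast h8
  · rintro ⟨m, n⟩ h1 h2 ⟨m', n'⟩ h1' h2' heq
    dsimp only at h1 h2 h1' h2' heq
    have h3 : n < m := by
      by_contra hc
      rw [if_neg hc] at h2
      exact h2 rfl
    have h3' : n' < m' := by
      by_contra hc
      rw [if_neg hc] at h2'
      exact h2' rfl
    rw [Prod.mk.injEq] at heq ⊢
    omega
  · rintro ⟨h, n⟩ h1 h2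
    dsimp only at h1 h2 ⊢
    rw [Finset.mem_product, Finset.mem_Ico, Finset.mem_range] at h1
    dsimp only at h1
    have h4 := left_ne_zero_of_mul h2
    rw [hWz h n h1.1.1] at h4
    have h5 : w ((n : ℝ) / M) * w (((n + h : ℕ) : ℝ) / M) ≠ 0 := by
      intro h
      apply h4
      rw [h, Complex.ofReal_zero]
    have h6 := hsup n (left_ne_zero_of_mul h5)
    have h7 := hsup (n + h) (right_ne_zero_of_mul h5)
    have hn1 : 1 ≤ n := by
      have : (1 : ℝ) ≤ n := hM.trans h6.1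
      exact_mod_cast this
    have h8 : n ≤ ⌊2 * M⌋₊ := Nat.le_floor h6.2
    have h9 : n + h ≤ ⌊2 * M⌋₊ := Nat.le_floor h7.2
    refine ⟨(n + h, n), ?_, ?_, ?_⟩
    · rw [Finset.mem_product, Finset.mem_Icc, Finset.mem_Icc]
      dsimp only
      omega
    · dsimp only
      rw [if_pos (by omega)]
      refine mul_ne_zero ?_ (mul_ne_zero ?_ (Complex.exp_ne_zero _))
      · rw [Complex.ofReal_ne_zero, mul_comm]
        exact h5
      · rw [Complex.ofReal_ne_zero]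
        exact (Real.exp_pos _).ne'
    · dsimp only
      rw [Prod.mk.injEq]
      omega
  · rintro ⟨m, n⟩ h1 h2
    dsimp only at h1 h2 ⊢
    have h3 : n < m := by
      by_contra hc
      rw [if_neg hc] at h2
      exact h2 rfl
    rw [if_pos h3]
    rw [Finset.mem_product, Finset.mem_Icc, Finset.mem_Icc] at h1
    dsimp only at h1
    have h4 : 1 ≤ m - n := by omega
    have h5 : n + (m - n) = m := by omega
    rw [hWz (m - n) n h4]
    unfold gz E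
    rw [hel (m - n) n h4 h1.2.1, h5, mul_comm (w ((m : ℝ) / M)) (w ((n : ℝ) / M))]
    congr 2
    push_cast
    ring_nf

theorem GMS_one (w : ℝ → ℝ) (M G t : ℝ) (hw : Wc 1 w) (hM : 1 ≤ M) (hG : 0 < G) :
    FG w M G t = Real.sqrt Real.pi * ((∑ n ∈ Finset.Icc 1 ⌊2 * M⌋₊, w ((n : ℝ) / M) ^ 2) +
      2 * (∑ h ∈ Finset.Ico 1 (⌊M⌋₊ + 1), ∑ n ∈ Finset.range (⌈4 * M⌉₊ + 1),
        ((Wz w M h ((n : ℝ) / h) : ℝ) : ℂ) *
          (((gz G ((n : ℝ) / h) : ℝ) : ℂ) * E t ((n : ℝ) / h))).re) := by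
  obtain ⟨K, hK⟩ : ∃ K : ℕ, K = ⌊2 * M⌋₊ := ⟨_, rfl⟩
  obtain ⟨L, hL⟩ : ∃ L : ℕ → ℕ → ℝ, L = fun m n : ℕ => Real.log m - Real.log n := ⟨_, rfl⟩
  have hpos : ∀ n ∈ Finset.Icc 1 K, 0 < n := fun n hn => (Finset.mem_Icc.1 hn).1
  have hexp : ∀ u : ℝ, ((Real.exp (-((u - t) / G) ^ 2) * ‖Sz w M u‖ ^ 2 : ℝ) : ℂ) =
      ∑ m ∈ Finset.Icc 1 K, ∑ n ∈ Finset.Icc 1 K, ((w ((m : ℝ) / M) * w ((n : ℝ) / M) : ℝ) : ℂ) *
        (((Real.exp (-((u - t) / G) ^ 2) : ℝ) : ℂ) *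
          Complex.exp (-((u : ℂ) * ((L m n : ℝ) : ℂ) * I))) := by
    intro u
    have h1 : ((‖Sz w M u‖ ^ 2 : ℝ) : ℂ) = Sz w M u * (starRingEnd ℂ) (Sz w M u) := by
      rw [Complex.mul_conj, Complex.normSq_eq_norm_sq]
    rw [Complex.ofReal_mul, h1]
    unfold Sz
    rw [← hK, map_sum, Finset.sum_mul_sum, Finset.mul_sum]
    refine Finset.sum_congr rfl fun m hm => ?_
    rw [Finset.mul_sum]
    refine Finset.sum_congr rfl fun n hn => ?_
    have h2 := Pool.Agent.LDH.INT_E m n (hpos m hm) (hpos n hn) u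
    rw [map_mul, Complex.conj_ofReal, hL, ← h2]
    push_cast
    ring
  have hgi := fun m n : ℕ => (Pool.Agent.LDH.INT_gauss G t (L m n) hG).1
  have hgv := fun m n : ℕ => (Pool.Agent.LDH.INT_gauss G t (L m n) hG).2
  obtain ⟨f, hf⟩ : ∃ f : ℕ → ℕ → ℂ, f = fun m n : ℕ => ((w ((m : ℝ) / M) * w ((n : ℝ) / M) : ℝ) : ℂ) *
      (((Real.exp (-(G * L m n) ^ 2 / 4) : ℝ) : ℂ) *
        Complex.exp (-((t : ℂ) * ((L m n : ℝ) : ℂ) * I))) := ⟨_, rfl⟩
  have hsub : ∫ u : ℝ, Real.exp (-(u / G) ^ 2) * ‖Sz w M (t + u)‖ ^ 2 =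
      ∫ u : ℝ, Real.exp (-((u - t) / G) ^ 2) * ‖Sz w M u‖ ^ 2 := by
    rw [← integral_add_left_eq_self (fun u : ℝ => Real.exp (-((u - t) / G) ^ 2) * ‖Sz w M u‖ ^ 2) t]
    congr 1
    funext u
    rw [add_sub_cancel_left]
  have hJ : (((∫ u : ℝ, Real.exp (-((u - t) / G) ^ 2) * ‖Sz w M u‖ ^ 2) : ℝ) : ℂ) =
      ((Real.sqrt Real.pi * G : ℝ) : ℂ) *
      ∑ m ∈ Finset.Icc 1 K, ∑ n ∈ Finset.Icc 1 K, f m n := by
    rw [← integral_complex_ofReal]
    have h1 : (fun u : ℝ => ((Real.exp (-((u - t) / G) ^ 2) * ‖Sz w M u‖ ^ 2 : ℝ) : ℂ)) = _ :=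
      funext hexp
    rw [h1, integral_finsetSum _ (fun m _ => integrable_finsetSum _ fun n _ =>
      (hgi m n).const_mul _), Finset.mul_sum]
    refine Finset.sum_congr rfl fun m _ => ?_
    rw [integral_finsetSum _ (fun n _ => (hgi m n).const_mul _), Finset.mul_sum]
    refine Finset.sum_congr rfl fun n _ => ?_
    rw [integral_const_mul, hgv m n, hf]
    push_cast
    ring
  have hfc : ∀ m n, f n m = (starRingEnd ℂ) (f m n) := by
    intro m n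
    have h1 : L n m = -(L m n) := by rw [hL]; simp
    rw [hf]
    simp only [map_mul, Complex.conj_ofReal, h1]
    rw [← Complex.exp_conj]
    simp only [map_neg, map_mul, Complex.conj_ofReal, Complex.conj_I]
    have h2 : -(G * -(L m n)) ^ 2 / 4 = -(G * L m n) ^ 2 / 4 := by ring
    rw [h2, mul_comm (w ((n : ℝ) / M)) (w ((m : ℝ) / M))]
    congr 3
    push_cast
    ring
  rw [GMS_dbl K f hfc] at hJ
  have hoff := GMS_off w M G t hw hM
  rw [← hK] at hoff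
  obtain ⟨S, hS⟩ : ∃ S : ℂ, S = ∑ h ∈ Finset.Ico 1 (⌊M⌋₊ + 1), ∑ n ∈ Finset.range (⌈4 * M⌉₊ + 1),
        ((Wz w M h ((n : ℝ) / h) : ℝ) : ℂ) *
          (((gz G ((n : ℝ) / h) : ℝ) : ℂ) * E t ((n : ℝ) / h)) := ⟨_, rfl⟩
  have hS2 : ∑ m ∈ Finset.Icc 1 K, ∑ n ∈ Finset.Icc 1 K, (if n < m then f m n else 0) = S := by
    rw [hS, ← hoff, hf, hL]
  rw [hS2] at hJ
  have hdiag : ∑ n ∈ Finset.Icc 1 K, f n n = ((∑ n ∈ Finset.Icc 1 K, w ((n : ℝ) / M) ^ 2 : ℝ) : ℂ) := by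
    rw [Complex.ofReal_sum]
    refine Finset.sum_congr rfl fun n _ => ?_
    rw [hf]
    have h1 : L n n = 0 := by rw [hL]; simp
    simp only [h1]
    simp
    ring
  rw [hdiag, Complex.add_conj, ← Complex.ofReal_add, ← Complex.ofReal_mul] at hJ
  have hJ2 := Complex.ofReal_injective hJ
  unfold FG
  rw [hsub, hJ2, ← hK, ← hS]
  field_simp

theorem GMS : GMS_stmt := by
  intro w M G W hw hM hG
  have hM0 : 0 < M := by linarith
  have h1 : ∑ t ∈ W, FG w M G t = Real.sqrt Real.pi * ((W.card : ℝ) *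
      (∑ n ∈ Finset.Icc 1 ⌊2 * M⌋₊, w ((n : ℝ) / M) ^ 2) +
      2 * (∑ h ∈ Finset.Ico 1 (⌊M⌋₊ + 1), ∑ n ∈ Finset.range (⌈4 * M⌉₊ + 1),
        ((Wz w M h ((n : ℝ) / h) : ℝ) : ℂ) *
          (((gz G ((n : ℝ) / h) : ℝ) : ℂ) * ∑ t ∈ W, E t ((n : ℝ) / h))).re) := by
    rw [Finset.sum_congr rfl fun t _ => GMS_one w M G t hw hM hG, ← Finset.mul_sum,
      Finset.sum_add_distrib, Finset.sum_const, nsmul_eq_mul, ← Finset.mul_sum, ← Complex.re_sum]
    congr 4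
    rw [Finset.sum_comm]
    refine Finset.sum_congr rfl fun h _ => ?_
    rw [Finset.sum_comm]
    refine Finset.sum_congr rfl fun n _ => ?_
    rw [Finset.mul_sum, Finset.mul_sum]
  rw [h1]
  obtain ⟨S, hS⟩ : ∃ S : ℂ, S = ∑ h ∈ Finset.Ico 1 (⌊M⌋₊ + 1), ∑ n ∈ Finset.range (⌈4 * M⌉₊ + 1),
        ((Wz w M h ((n : ℝ) / h) : ℝ) : ℂ) *
          (((gz G ((n : ℝ) / h) : ℝ) : ℂ) * ∑ t ∈ W, E t ((n : ℝ) / h)) := ⟨_, rfl⟩
  rw [← hS]
  have hpi : Real.sqrt Real.pi ≤ 2 := by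
    rw [Real.sqrt_le_left (by norm_num)]
    have := Real.pi_lt_four
    linarith
  have hd0 : 0 ≤ ∑ n ∈ Finset.Icc 1 ⌊2 * M⌋₊, w ((n : ℝ) / M) ^ 2 :=
    Finset.sum_nonneg fun n _ => sq_nonneg _
  have hd1 : ∑ n ∈ Finset.Icc 1 ⌊2 * M⌋₊, w ((n : ℝ) / M) ^ 2 ≤ 2 * M := by
    have h2 : ∑ n ∈ Finset.Icc 1 ⌊2 * M⌋₊, w ((n : ℝ) / M) ^ 2 ≤
        ∑ n ∈ Finset.Icc 1 ⌊2 * M⌋₊, (1 : ℝ) := by
      refine Finset.sum_le_sum fun n _ => ?_
      have h3 := (hw.2.2 ((n : ℝ) / M)).1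
      rw [← sq_abs]
      have h4 := abs_nonneg (w ((n : ℝ) / M))
      nlinarith
    rw [Finset.sum_const, Nat.card_Icc, nsmul_eq_mul, mul_one] at h2
    have h5 : ((⌊2 * M⌋₊ + 1 - 1 : ℕ) : ℝ) ≤ 2 * M := by
      rw [Nat.add_sub_cancel]
      exact Nat.floor_le (by linarith)
    linarith
  have hc : (0 : ℝ) ≤ W.card := Nat.cast_nonneg _
  have h6 : (W.card : ℝ) * (∑ n ∈ Finset.Icc 1 ⌊2 * M⌋₊, w ((n : ℝ) / M) ^ 2) ≤ W.card * (2 * M) :=
    mul_le_mul_of_nonneg_left hd1 hc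
  have h7 := Complex.re_le_norm S
  have h8 := norm_nonneg S
  calc Real.sqrt Real.pi * ((W.card : ℝ) *
      (∑ n ∈ Finset.Icc 1 ⌊2 * M⌋₊, w ((n : ℝ) / M) ^ 2) + 2 * S.re)
      ≤ Real.sqrt Real.pi * ((W.card : ℝ) * (2 * M) + 2 * ‖S‖) := by
        apply mul_le_mul_of_nonneg_left _ (Real.sqrt_nonneg _)
        linarith
    _ ≤ 2 * ((W.card : ℝ) * (2 * M) + 2 * ‖S‖) := by
        apply mul_le_mul_of_nonneg_right hpi
        positivity
    _ = _ := by ring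

end Pool.Agent.BEY
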