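import Pool.Agent.helper5.BEY.SpecA
set_option autoImplicit false
open Complex MeasureTheory
namespace Pool.Agent.BEY

theorem LVZ_FG (w : ℝ → ℝ) (M G t K : ℝ) (hK : K ≠ 0) :
    FG (fun x => w x * Real.log x) M G t = K ^ 2 * FG (fun x => w x * Real.log x / K) M G t := by
  have hKc : (K : ℂ) ≠ 0 := by exact_mod_cast hK
  have h1 : ∀ u : ℝ, ‖Sz (fun x => w x * Real.log x) M u‖ ^ 2 =
      K ^ 2 * ‖Sz (fun x => w x * Real.log x / K) M u‖ ^ 2 := by
    intro u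
    have h2 : Sz (fun x => w x * Real.log x) M u =
        (K : ℂ) * Sz (fun x => w x * Real.log x / K) M u := by
      unfold Sz
      rw [Finset.mul_sum]
      refine Finset.sum_congr rfl fun n _ => ?_
      rw [← mul_assoc, ← Complex.ofReal_mul]
      congr 2
      field_simp
    rw [h2, norm_mul, mul_pow, Complex.norm_real, Real.norm_eq_abs, sq_abs]
  unfold FG
  have h3 : (fun u : ℝ => Real.exp (-(u / G) ^ 2) *
      ‖Sz (fun x => w x * Real.log x) M (((t + u : ℝ) : ℝ))‖ ^ 2) =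
      fun u : ℝ => K ^ 2 * (Real.exp (-(u / G) ^ 2) *
        ‖Sz (fun x => w x * Real.log x / K) M (t + u)‖ ^ 2) := by
    funext u
    rw [h1 (t + u)]
    ring
  rw [h3, integral_const_mul]
  ring

theorem LVZ_Sz (w : ℝ → ℝ) (M t : ℝ) (hw : Wc 1 w) (hM : 1 ≤ M) : ‖Sz w M t‖ ≤ 2 * M := by
  unfold Sz
  refine (norm_sum_le _ _).trans ?_
  have h1 : ∑ n ∈ Finset.Icc 1 ⌊2 * M⌋₊, ‖((w ((n : ℝ) / M) : ℝ) : ℂ) * (n : ℂ) ^ (-((t : ℂ) * I))‖ ≤
      ∑ n ∈ Finset.Icc 1 ⌊2 * M⌋₊, (1 : ℝ) := by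
    refine Finset.sum_le_sum fun n hn => ?_
    have hn0 : 0 < n := (Finset.mem_Icc.1 hn).1
    rw [norm_mul, Complex.norm_natCast_cpow_of_pos hn0, Complex.norm_real, Real.norm_eq_abs]
    have h2 : (-((t : ℂ) * I)).re = 0 := by simp
    rw [h2, Real.rpow_zero, mul_one]
    exact (hw.2.2 _).1
  refine h1.trans ?_
  rw [Finset.sum_const, Nat.card_Icc, nsmul_eq_mul, mul_one, Nat.add_sub_cancel]
  exact Nat.floor_le (by linarith)

theorem LVZ_card (T : ℝ) (W : Finset ℝ) (hT : 1 ≤ T) (hW : ∀ t ∈ W, T ≤ t ∧ t ≤ 2 * T)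
    (hsep : ∀ t ∈ W, ∀ s ∈ W, t ≠ s → 1 ≤ |t - s|) : (W.card : ℝ) ≤ 3 * T := by
  have h1 : W.card ≤ (Finset.Icc ⌊T⌋₊ ⌊2 * T⌋₊).card := by
    refine Finset.card_le_card_of_injOn (fun t => ⌊t⌋₊) ?_ ?_
    · intro t ht
      have h2 := hW t (Finset.mem_coe.1 ht)
      rw [Finset.mem_coe, Finset.mem_Icc]
      exact ⟨Nat.floor_le_floor h2.1, Nat.floor_le_floor h2.2⟩
    · intro t ht s hs hts
      by_contra hne
      have h2 := hW t (Finset.mem_coe.1 ht)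
      have h3 := hW s (Finset.mem_coe.1 hs)
      have h4 := hsep t (Finset.mem_coe.1 ht) s (Finset.mem_coe.1 hs) hne
      have h5 := Nat.floor_le (by linarith : 0 ≤ t)
      have h6 := Nat.floor_le (by linarith : 0 ≤ s)
      have h7 := Nat.lt_floor_add_one t
      have h8 := Nat.lt_floor_add_one s
      have h9 : (⌊t⌋₊ : ℝ) = ⌊s⌋₊ := by
        have : ⌊t⌋₊ = ⌊s⌋₊ := hts
        rw [this]
      have h10 : |t - s| < 1 := by
        rw [abs_lt]
        constructor <;> linarith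
      linarith
  rw [Nat.card_Icc] at h1
  have h2 : ((W.card : ℕ) : ℝ) ≤ ((⌊2 * T⌋₊ + 1 - ⌊T⌋₊ : ℕ) : ℝ) := by exact_mod_cast h1
  have h3 : ⌊T⌋₊ ≤ ⌊2 * T⌋₊ + 1 := by
    have := Nat.floor_le_floor (by linarith : T ≤ 2 * T)
    omega
  rw [Nat.cast_sub h3] at h2
  push_cast at h2
  have h4 := Nat.floor_le (by linarith : 0 ≤ 2 * T)
  have h5 := Nat.lt_floor_add_one T
  linarith

theorem LVZ_geom (N : ℕ) : ∑ i ∈ Finset.range N, (1 / 4 : ℝ) ^ i ≤ 2 := by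
  have h : ∀ N : ℕ, ∑ i ∈ Finset.range N, (1 / 4 : ℝ) ^ i ≤ 2 - (4 / 3) * (1 / 4 : ℝ) ^ N := by
    intro N
    induction N with
    | zero => norm_num
    | succ k ih =>
      rw [Finset.sum_range_succ, pow_succ]
      have : (0 : ℝ) < (1 / 4) ^ k := by positivity
      linarith
  have h2 := h N
  have : (0 : ℝ) < (1 / 4) ^ N := by positivity
  linarith

theorem LVZ (hCLU : CLU_stmt) (hSBG : SBG_stmt) (hWLG : WLG_stmt) (hSPL : SPL_stmt) : LVZ_stmt := by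
  intro ε hε
  obtain ⟨C₀, hC₀, hB⟩ := hSBG
  obtain ⟨K, hK1, hWL⟩ := hWLG
  obtain ⟨e, he⟩ : ∃ e : ℝ, e = ε / 16 := ⟨_, rfl⟩
  have he0 : 0 < e := by rw [he]; positivity
  have hεe : ε = 16 * e := by rw [he]; ring
  obtain ⟨C₁, hC₁, hS⟩ := hSPL e he0
  have hK0 : 0 < K := by linarith
  obtain ⟨c, hc⟩ : ∃ c : ℝ, c = 1 / (2 * C₀ * K ^ 2 * C₁ + 1) := ⟨_, rfl⟩
  have hden : 0 < 2 * C₀ * K ^ 2 * C₁ + 1 := by positivity
  have hc0 : 0 < c := by rw [hc]; positivity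
  have hc1 : c ≤ 1 := by
    rw [hc, div_le_one hden]
    have : 0 < 2 * C₀ * K ^ 2 * C₁ := by positivity
    linarith
  obtain ⟨T₁, hT₁⟩ : ∃ T₁ : ℝ, T₁ = (2 / c) ^ (1 / (29 * e)) := ⟨_, rfl⟩
  have hT₁0 : 0 < T₁ := by rw [hT₁]; positivity
  refine ⟨16 * c ^ (-6 : ℝ) + 192 * T₁ ^ 3, by positivity, ?_⟩
  intro T M V w W hT hM hMT hw hV hWT hsep hlarge
  have hT0 : 0 < T := by linarith
  have hM0 : 0 < M := by linarith
  have hV1 : 1 ≤ V := (Real.one_le_rpow hT hε.le).trans hV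
  have hV0 : 0 < V := by linarith
  have hTε : 1 ≤ T ^ ε := Real.one_le_rpow hT hε.le
  have hA0 : 0 ≤ T ^ 2 * V ^ (-12 : ℝ) + T * V ^ (-6 : ℝ) := by positivity
  by_cases hG : 2 * T ^ e ≤ c * V ^ 2 * T ^ (-(2 * e))
  · -- large `T`
    obtain ⟨G₀, hG₀⟩ : ∃ G₀ : ℝ, G₀ = c * V ^ 2 * T ^ (-(2 * e)) := ⟨_, rfl⟩
    have hG₀0 : 0 < G₀ := by rw [hG₀]; positivity
    rw [← hG₀] at hG
    have hTe : 1 ≤ T ^ e := Real.one_le_rpow hT he0.le
    obtain ⟨Ws, hs1, hs2, hs3, hs4⟩ := hCLU W G₀ hG₀0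
    have key : ∀ i : ℕ, ((Ws i).card : ℝ) ≤
        2 * (T ^ 2 * (2 ^ i * G₀) ^ (-6 : ℝ) + T * (2 ^ i * G₀) ^ (-3 : ℝ)) := by
      intro i
      have h2i : (1 : ℝ) ≤ 2 ^ i := one_le_pow₀ (by norm_num)
      have hGi : G₀ ≤ 2 ^ i * G₀ := by nlinarith
      have hGi1 : 2 * T ^ e ≤ 2 ^ i * G₀ := hG.trans hGi
      have hdich : ∀ t ∈ Ws i, C₁ * T ^ e * M ≤ FG w M (2 ^ i * G₀) t ∨
          C₁ * T ^ e * M ≤ FG (fun x => w x * Real.log x / K) M (2 ^ i * G₀) t := by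
        intro t ht
        obtain ⟨S, hS1, hS2, hS3⟩ := hs3 i t ht
        have h1 := hB w M (2 ^ i * G₀) t (V * M ^ (1 / 2 : ℝ)) S hw hM (by linarith) (by positivity)
          hS2 (fun s hs s' hs' hne => hsep s (hS1 hs) s' (hS1 hs') hne)
          (fun s hs => hlarge s (hS1 hs))
        rw [LVZ_FG w M (2 ^ i * G₀) t K hK0.ne'] at h1
        obtain ⟨P, hP⟩ : ∃ P : ℝ, P = FG w M (2 ^ i * G₀) t := ⟨_, rfl⟩
        obtain ⟨Q, hQ⟩ : ∃ Q : ℝ, Q = FG (fun x => w x * Real.log x / K) M (2 ^ i * G₀) t := ⟨_, rfl⟩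
        rw [← hP, ← hQ] at h1 ⊢
        have hMM : (V * M ^ (1 / 2 : ℝ)) ^ 2 = V ^ 2 * M := by
          rw [mul_pow, ← Real.sqrt_eq_rpow, Real.sq_sqrt hM0.le]
        rw [hMM] at h1
        have hcS : (2 : ℝ) ^ i ≤ S.card := by exact_mod_cast hS3
        have h2 : (2 : ℝ) ^ i * (V ^ 2 * M) ≤ C₀ * (2 ^ i * G₀) * (P + K ^ 2 * Q) :=
          (mul_le_mul_of_nonneg_right hcS (by positivity)).trans h1
        have h3 : V ^ 2 * M ≤ C₀ * G₀ * (P + K ^ 2 * Q) := by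
          have h4 : (2 : ℝ) ^ i * (V ^ 2 * M) ≤ 2 ^ i * (C₀ * G₀ * (P + K ^ 2 * Q)) := by
            calc (2 : ℝ) ^ i * (V ^ 2 * M) ≤ C₀ * (2 ^ i * G₀) * (P + K ^ 2 * Q) := h2
              _ = _ := by ring
          exact le_of_mul_le_mul_left h4 (by positivity)
        by_contra hcon
        rw [not_or, not_le, not_le] at hcon
        have h5 : P + K ^ 2 * Q < 2 * K ^ 2 * (C₁ * T ^ e * M) := by
          have hK2 : 1 ≤ K ^ 2 := one_le_pow₀ hK1
          have h6 : K ^ 2 * Q < K ^ 2 * (C₁ * T ^ e * M) :=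
            mul_lt_mul_of_pos_left hcon.2 (by positivity)
          have h7 : C₁ * T ^ e * M ≤ K ^ 2 * (C₁ * T ^ e * M) := by
            have : 0 < C₁ * T ^ e * M := by positivity
            nlinarith
          linarith [hcon.1]
        have h8 : C₀ * G₀ * (P + K ^ 2 * Q) < C₀ * G₀ * (2 * K ^ 2 * (C₁ * T ^ e * M)) :=
          mul_lt_mul_of_pos_left h5 (by positivity)
        have h9 : C₀ * G₀ * (2 * K ^ 2 * (C₁ * T ^ e * M)) =
            (2 * C₀ * K ^ 2 * C₁ * c) * (V ^ 2 * M) * (T ^ (-(2 * e)) * T ^ e) := by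
          rw [hG₀]
          ring
        have h10 : T ^ (-(2 * e)) * T ^ e ≤ 1 := by
          rw [← Real.rpow_add hT0]
          exact Real.rpow_le_one_of_one_le_of_nonpos hT (by linarith)
        have h11 : 2 * C₀ * K ^ 2 * C₁ * c ≤ 1 := by
          rw [hc, mul_one_div, div_le_one hden]
          linarith
        have h12 : (2 * C₀ * K ^ 2 * C₁ * c) * (V ^ 2 * M) * (T ^ (-(2 * e)) * T ^ e) ≤
            1 * (V ^ 2 * M) * 1 := by
          apply mul_le_mul _ h10 (by positivity) (by positivity)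
          exact mul_le_mul_of_nonneg_right h11 (by positivity)
        linarith
      classical
      have hcard : ((Ws i).card : ℝ) ≤
          (((Ws i).filter (fun t => C₁ * T ^ e * M ≤ FG w M (2 ^ i * G₀) t)).card : ℝ) +
          (((Ws i).filter (fun t => C₁ * T ^ e * M ≤
            FG (fun x => w x * Real.log x / K) M (2 ^ i * G₀) t)).card : ℝ) := by
        have h1 : Ws i ⊆ (Ws i).filter (fun t => C₁ * T ^ e * M ≤ FG w M (2 ^ i * G₀) t) ∪
            (Ws i).filter (fun t => C₁ * T ^ e * M ≤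
              FG (fun x => w x * Real.log x / K) M (2 ^ i * G₀) t) := by
          intro t ht
          rw [Finset.mem_union, Finset.mem_filter, Finset.mem_filter]
          rcases hdich t ht with h | h
          · exact Or.inl ⟨ht, h⟩
          · exact Or.inr ⟨ht, h⟩
        have h2 := (Finset.card_le_card h1).trans (Finset.card_union_le _ _)
        exact_mod_cast h2
      have hA := hS w T M (2 ^ i * G₀)
        ((Ws i).filter (fun t => C₁ * T ^ e * M ≤ FG w M (2 ^ i * G₀) t)) hw hM hMT hGi1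
        (fun t ht => hWT t (hs1 i (Finset.mem_filter.1 ht).1))
        (fun t ht s hs hne => hs2 i t (Finset.mem_filter.1 ht).1 s (Finset.mem_filter.1 hs).1 hne)
        (fun t ht => (Finset.mem_filter.1 ht).2)
      have hBB := hS (fun x => w x * Real.log x / K) T M (2 ^ i * G₀)
        ((Ws i).filter (fun t => C₁ * T ^ e * M ≤
            FG (fun x => w x * Real.log x / K) M (2 ^ i * G₀) t)) (hWL w hw) hM hMT hGi1
        (fun t ht => hWT t (hs1 i (Finset.mem_filter.1 ht).1))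
        (fun t ht s hs hne => hs2 i t (Finset.mem_filter.1 ht).1 s (Finset.mem_filter.1 hs).1 hne)
        (fun t ht => (Finset.mem_filter.1 ht).2)
      linarith
    obtain ⟨X, hX⟩ : ∃ X : ℝ, X = T ^ 2 * G₀ ^ (-6 : ℝ) + T * G₀ ^ (-3 : ℝ) := ⟨_, rfl⟩
    have hX0 : 0 ≤ X := by rw [hX]; positivity
    have key2 : ∀ i : ℕ, (2 : ℝ) ^ (i + 1) * ((Ws i).card : ℝ) ≤ 4 * X * (1 / 4 : ℝ) ^ i := by
      intro i
      have h2i : (1 : ℝ) ≤ 2 ^ i := one_le_pow₀ (by norm_num)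
      have h2i0 : (0 : ℝ) < 2 ^ i := by positivity
      have h3 : ((2 : ℝ) ^ i) ^ (-3 : ℝ) = (1 / 8 : ℝ) ^ i := by
        rw [Real.rpow_neg h2i0.le]
        have h4 : ((2 : ℝ) ^ i) ^ (3 : ℝ) = 8 ^ i := by
          have h5 : (3 : ℝ) = ((3 : ℕ) : ℝ) := by norm_num
          rw [h5, Real.rpow_natCast, ← pow_mul, mul_comm, pow_mul]
          norm_num
        rw [h4, one_div, inv_pow]
      have h6 : ((2 : ℝ) ^ i) ^ (-6 : ℝ) ≤ (1 / 8 : ℝ) ^ i := by
        rw [← h3]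
        exact Real.rpow_le_rpow_of_exponent_le h2i (by norm_num)
      have h7 := key i
      rw [Real.mul_rpow h2i0.le hG₀0.le, Real.mul_rpow h2i0.le hG₀0.le, h3] at h7
      have h8 : T ^ 2 * (((2 : ℝ) ^ i) ^ (-6 : ℝ) * G₀ ^ (-6 : ℝ)) ≤
          T ^ 2 * ((1 / 8 : ℝ) ^ i * G₀ ^ (-6 : ℝ)) := by
        apply mul_le_mul_of_nonneg_left _ (by positivity)
        exact mul_le_mul_of_nonneg_right h6 (by positivity)
      have h9 : ((Ws i).card : ℝ) ≤ 2 * ((1 / 8 : ℝ) ^ i * X) := by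
        rw [hX]
        linarith
      calc (2 : ℝ) ^ (i + 1) * ((Ws i).card : ℝ) ≤ 2 ^ (i + 1) * (2 * ((1 / 8 : ℝ) ^ i * X)) :=
            mul_le_mul_of_nonneg_left h9 (by positivity)
        _ = 4 * X * (2 ^ i * (1 / 8 : ℝ) ^ i) := by
            rw [pow_succ]
            ring
        _ = 4 * X * (1 / 4 : ℝ) ^ i := by
            rw [← mul_pow]
            norm_num
    have hsum : (W.card : ℝ) ≤ 8 * X := by
      have h1 : (W.card : ℝ) ≤ ∑ i ∈ Finset.range (W.card + 1), (2 : ℝ) ^ (i + 1) * ((Ws i).card : ℝ) := by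
        exact_mod_cast hs4
      have h2 : ∑ i ∈ Finset.range (W.card + 1), (2 : ℝ) ^ (i + 1) * ((Ws i).card : ℝ) ≤
          ∑ i ∈ Finset.range (W.card + 1), 4 * X * (1 / 4 : ℝ) ^ i :=
        Finset.sum_le_sum fun i _ => key2 i
      rw [← Finset.mul_sum] at h2
      have h3 := LVZ_geom (W.card + 1)
      have h4 : 4 * X * ∑ i ∈ Finset.range (W.card + 1), (1 / 4 : ℝ) ^ i ≤ 4 * X * 2 :=
        mul_le_mul_of_nonneg_left h3 (by positivity)
      linarith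
    have hXle : X ≤ c ^ (-6 : ℝ) * T ^ ε * (T ^ 2 * V ^ (-12 : ℝ) + T * V ^ (-6 : ℝ)) := by
      have h1 : ∀ a : ℝ, G₀ ^ a = c ^ a * V ^ (2 * a) * T ^ (-(2 * e) * a) := by
        intro a
        rw [hG₀, Real.mul_rpow (by positivity) (by positivity), Real.mul_rpow hc0.le (by positivity),
          ← Real.rpow_natCast V 2, ← Real.rpow_mul hV0.le, ← Real.rpow_mul hT0.le]
        norm_num
      have h2 := h1 (-6)
      have h3 := h1 (-3)
      have e1 : (2 : ℝ) * -6 = -12 := by norm_num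
      have e2 : (2 : ℝ) * -3 = -6 := by norm_num
      rw [e1] at h2
      rw [e2] at h3
      have h4 : T ^ (-(2 * e) * -6) ≤ T ^ ε := by
        apply Real.rpow_le_rpow_of_exponent_le hT
        linarith
      have h5 : T ^ (-(2 * e) * -3) ≤ T ^ ε := by
        apply Real.rpow_le_rpow_of_exponent_le hT
        linarith
      have h6 : c ^ (-3 : ℝ) ≤ c ^ (-6 : ℝ) :=
        Real.rpow_le_rpow_of_exponent_ge hc0 hc1 (by norm_num)
      rw [hX, h2, h3]
      have h7 : T ^ 2 * (c ^ (-6 : ℝ) * V ^ (-12 : ℝ) * T ^ (-(2 * e) * -6)) ≤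
          T ^ 2 * (c ^ (-6 : ℝ) * V ^ (-12 : ℝ) * T ^ ε) := by
        apply mul_le_mul_of_nonneg_left _ (by positivity)
        exact mul_le_mul_of_nonneg_left h4 (by positivity)
      have h8 : T * (c ^ (-3 : ℝ) * V ^ (-6 : ℝ) * T ^ (-(2 * e) * -3)) ≤
          T * (c ^ (-6 : ℝ) * V ^ (-6 : ℝ) * T ^ ε) := by
        apply mul_le_mul_of_nonneg_left _ (by positivity)
        apply mul_le_mul _ h5 (by positivity) (by positivity)
        exact mul_le_mul_of_nonneg_right h6 (by positivity)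
      linarith
    have hfin : 16 * (c ^ (-6 : ℝ) * T ^ ε * (T ^ 2 * V ^ (-12 : ℝ) + T * V ^ (-6 : ℝ))) ≤
        (16 * c ^ (-6 : ℝ) + 192 * T₁ ^ 3) * T ^ ε *
          (T ^ 2 * V ^ (-12 : ℝ) + T * V ^ (-6 : ℝ)) := by
      have h1 : 0 ≤ 192 * T₁ ^ 3 * (T ^ ε * (T ^ 2 * V ^ (-12 : ℝ) + T * V ^ (-6 : ℝ))) := by
        positivity
      linarith
    have h0 : 0 ≤ c ^ (-6 : ℝ) * T ^ ε * (T ^ 2 * V ^ (-12 : ℝ) + T * V ^ (-6 : ℝ)) := by
      positivity
    linarith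
  · -- small `T`
    rw [not_le] at hG
    rcases W.eq_empty_or_nonempty with hWe | ⟨t₀, ht₀⟩
    · rw [hWe, Finset.card_empty, Nat.cast_zero]
      positivity
    have hTT₁ : T ≤ T₁ := by
      have h1 : T ^ (32 * e) ≤ V ^ 2 := by
        have h2 : T ^ (32 * e) = (T ^ ε) ^ 2 := by
          rw [← Real.rpow_natCast, ← Real.rpow_mul hT0.le, hεe]
          congr 1
          push_cast
          ring
        rw [h2]
        exact pow_le_pow_left₀ (by positivity) hV 2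
      have h3 : c * T ^ (32 * e) * T ^ (-(2 * e)) < 2 * T ^ e := by
        refine lt_of_le_of_lt ?_ hG
        apply mul_le_mul_of_nonneg_right _ (by positivity)
        exact mul_le_mul_of_nonneg_left h1 hc0.le
      have h4 : c * T ^ (32 * e) * T ^ (-(2 * e)) = c * T ^ (29 * e) * T ^ e := by
        rw [mul_assoc, mul_assoc, ← Real.rpow_add hT0, ← Real.rpow_add hT0]
        congr 2
        ring
      rw [h4] at h3
      have h5 : c * T ^ (29 * e) < 2 := lt_of_mul_lt_mul_right h3 (by positivity)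
      have h6 : T ^ (29 * e) ≤ 2 / c := by
        rw [le_div_iff₀ hc0]
        linarith
      have h7 : T = (T ^ (29 * e)) ^ (1 / (29 * e)) := by
        rw [← Real.rpow_mul hT0.le, mul_one_div_cancel (by positivity), Real.rpow_one]
      rw [h7, hT₁]
      exact Real.rpow_le_rpow (by positivity) h6 (by positivity)
    have hVle : V ≤ 2 * M ^ (1 / 2 : ℝ) := by
      have h1 := (hlarge t₀ ht₀).trans (LVZ_Sz w M t₀ hw hM)
      have h2 : 2 * M = 2 * M ^ (1 / 2 : ℝ) * M ^ (1 / 2 : ℝ) := by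
        rw [mul_assoc, ← Real.rpow_add hM0]
        norm_num
      rw [h2] at h1
      exact le_of_mul_le_mul_right h1 (by positivity)
    have hV6 : V ^ 6 ≤ 64 * T₁ ^ 3 := by
      have h1 : V ^ 6 ≤ (2 * M ^ (1 / 2 : ℝ)) ^ 6 := pow_le_pow_left₀ hV0.le hVle 6
      have h2 : (2 * M ^ (1 / 2 : ℝ)) ^ 6 = 64 * M ^ 3 := by
        rw [mul_pow, ← Real.rpow_natCast (M ^ (1 / 2 : ℝ)) 6, ← Real.rpow_mul hM0.le]
        have h3 : (1 / 2 : ℝ) * ((6 : ℕ) : ℝ) = ((3 : ℕ) : ℝ) := by norm_num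
        rw [h3, Real.rpow_natCast]
        norm_num
      have h4 : M ^ 3 ≤ T₁ ^ 3 := pow_le_pow_left₀ hM0.le (hMT.trans hTT₁) 3
      linarith
    have hVr : V ^ (-6 : ℝ) = (V ^ 6)⁻¹ := by
      rw [Real.rpow_neg hV0.le]
      have h5 : (6 : ℝ) = ((6 : ℕ) : ℝ) := by norm_num
      rw [h5, Real.rpow_natCast]
    have h1 := LVZ_card T W hT hWT hsep
    have h2 : 3 * T ≤ 192 * T₁ ^ 3 * (T * V ^ (-6 : ℝ)) := by
      rw [hVr]
      have h3 : 0 < V ^ 6 := by positivity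
      have h4 : 192 * T₁ ^ 3 * (T * (V ^ 6)⁻¹) = 192 * T₁ ^ 3 * T / V ^ 6 := by
        rw [div_eq_mul_inv]
        ring
      rw [h4, le_div_iff₀ h3]
      nlinarith
    have h5 : 0 ≤ T ^ 2 * V ^ (-12 : ℝ) := by positivity
    have h6 : 0 ≤ T * V ^ (-6 : ℝ) := by positivity
    have h7 : 0 ≤ c ^ (-6 : ℝ) := by positivity
    have h8 : 192 * T₁ ^ 3 * (T * V ^ (-6 : ℝ)) ≤
        192 * T₁ ^ 3 * (T ^ 2 * V ^ (-12 : ℝ) + T * V ^ (-6 : ℝ)) :=
      mul_le_mul_of_nonneg_left (by linarith) (by positivity)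
    have h9 : 192 * T₁ ^ 3 * (T ^ 2 * V ^ (-12 : ℝ) + T * V ^ (-6 : ℝ)) ≤
        (16 * c ^ (-6 : ℝ) + 192 * T₁ ^ 3) * T ^ ε *
          (T ^ 2 * V ^ (-12 : ℝ) + T * V ^ (-6 : ℝ)) := by
      apply mul_le_mul_of_nonneg_right _ hA0
      have h10 : 192 * T₁ ^ 3 ≤ 16 * c ^ (-6 : ℝ) + 192 * T₁ ^ 3 := by linarith
      calc 192 * T₁ ^ 3 ≤ 16 * c ^ (-6 : ℝ) + 192 * T₁ ^ 3 := h10
        _ = (16 * c ^ (-6 : ℝ) + 192 * T₁ ^ 3) * 1 := by ring
        _ ≤ _ := mul_le_mul_of_nonneg_left hTε (by positivity)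
    linarith

end Pool.Agent.BEY
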