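import Pool.Agent.helper5.BEY.SpecA
import Pool.Agent.helper31.LDH.INT
import Pool.Agent.helper20.LDH.SOB
set_option autoImplicit false
open Complex MeasureTheory
namespace Pool.Agent.BEY

/-- the twisted sum -/
noncomputable def SBG_G (w : ℝ → ℝ) (M u : ℝ) : ℂ :=
  ∑ n ∈ Finset.Icc 1 ⌊2 * M⌋₊, ((w ((n : ℝ) / M) : ℝ) : ℂ) *
    Complex.exp ((u : ℂ) * (((-Real.log ((n : ℝ) / M) : ℝ) : ℂ) * I))

theorem SBG_norm (w : ℝ → ℝ) (M u : ℝ) (hM : 0 < M) : ‖Sz w M u‖ = ‖SBG_G w M u‖ := by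
  have h : Sz w M u = Complex.exp (((-(u * Real.log M) : ℝ) : ℂ) * I) * SBG_G w M u := by
    unfold Sz SBG_G
    rw [Finset.mul_sum]
    refine Finset.sum_congr rfl fun n hn => ?_
    have hn1 : 1 ≤ n := (Finset.mem_Icc.1 hn).1
    have hn0 : (0 : ℝ) < n := by exact_mod_cast hn1
    have hnc : (n : ℂ) ≠ 0 := by exact_mod_cast hn0.ne'
    rw [Complex.cpow_def_of_ne_zero hnc, ← Complex.natCast_log]
    have h1 : Real.log ((n : ℝ) / M) = Real.log n - Real.log M := Real.log_div hn0.ne' hM.ne'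
    rw [h1, mul_left_comm, ← Complex.exp_add]
    congr 2
    push_cast
    ring
  rw [h, norm_mul, Complex.norm_exp_ofReal_mul_I, one_mul]

theorem SBG_der (w : ℝ → ℝ) (M u : ℝ) :
    HasDerivAt (SBG_G w M) (-I * SBG_G (fun x => w x * Real.log x) M u) u := by
  have h1 : ∀ n ∈ Finset.Icc 1 ⌊2 * M⌋₊, HasDerivAt (fun u : ℝ => ((w ((n : ℝ) / M) : ℝ) : ℂ) *
      Complex.exp ((u : ℂ) * (((-Real.log ((n : ℝ) / M) : ℝ) : ℂ) * I)))
      (((w ((n : ℝ) / M) : ℝ) : ℂ) *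
        (Complex.exp ((u : ℂ) * (((-Real.log ((n : ℝ) / M) : ℝ) : ℂ) * I)) *
        (1 * (((-Real.log ((n : ℝ) / M) : ℝ) : ℂ) * I)))) u := by
    intro n _
    have h2 : HasDerivAt (fun u : ℝ => (u : ℂ)) 1 u := (hasDerivAt_id u).ofReal_comp
    exact ((h2.mul_const _).cexp).const_mul _
  have h3 := HasDerivAt.fun_sum h1
  have h4 : -I * SBG_G (fun x => w x * Real.log x) M u =
      ∑ n ∈ Finset.Icc 1 ⌊2 * M⌋₊, (((w ((n : ℝ) / M) : ℝ) : ℂ) *
        (Complex.exp ((u : ℂ) * (((-Real.log ((n : ℝ) / M) : ℝ) : ℂ) * I)) *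
        (1 * (((-Real.log ((n : ℝ) / M) : ℝ) : ℂ) * I)))) := by
    unfold SBG_G
    rw [Finset.mul_sum]
    refine Finset.sum_congr rfl fun n _ => ?_
    push_cast
    ring
  rw [h4]
  exact h3

theorem SBG_derF (w : ℝ → ℝ) (M u : ℝ) : ∃ D : ℝ,
    HasDerivAt (fun v => ‖SBG_G w M v‖ ^ 2) D u ∧
      |D| ≤ ‖SBG_G w M u‖ ^ 2 + ‖SBG_G (fun x => w x * Real.log x) M u‖ ^ 2 := by
  have h1 := (SBG_der w M u).norm_sq
  refine ⟨_, h1, ?_⟩
  have h2 := abs_real_inner_le_norm (SBG_G w M u) (-I * SBG_G (fun x => w x * Real.log x) M u)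
  rw [norm_mul, norm_neg, Complex.norm_I, one_mul] at h2
  rw [abs_mul, abs_two]
  nlinarith [sq_nonneg (‖SBG_G w M u‖ - ‖SBG_G (fun x => w x * Real.log x) M u‖)]

theorem SBG_cont (w : ℝ → ℝ) (M : ℝ) : Continuous (SBG_G w M) :=
  continuous_iff_continuousAt.2 fun u => (SBG_der w M u).continuousAt

theorem SBG_int (w : ℝ → ℝ) (M G t : ℝ) (hG : 0 < G) :
    Integrable (fun u : ℝ => Real.exp (-((u - t) / G) ^ 2) * ‖Sz w M u‖ ^ 2) := by
  obtain ⟨L, hL⟩ : ∃ L : ℕ → ℕ → ℝ, L = fun m n : ℕ => Real.log m - Real.log n := ⟨_, rfl⟩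
  have hpos : ∀ n ∈ Finset.Icc 1 ⌊2 * M⌋₊, 0 < n := fun n hn => (Finset.mem_Icc.1 hn).1
  have hexp : ∀ u : ℝ, ((Real.exp (-((u - t) / G) ^ 2) * ‖Sz w M u‖ ^ 2 : ℝ) : ℂ) =
      ∑ m ∈ Finset.Icc 1 ⌊2 * M⌋₊, ∑ n ∈ Finset.Icc 1 ⌊2 * M⌋₊,
        ((w ((m : ℝ) / M) * w ((n : ℝ) / M) : ℝ) : ℂ) *
        (((Real.exp (-((u - t) / G) ^ 2) : ℝ) : ℂ) *
          Complex.exp (-((u : ℂ) * ((L m n : ℝ) : ℂ) * I))) := by
    intro u
    have h1 : ((‖Sz w M u‖ ^ 2 : ℝ) : ℂ) = Sz w M u * (starRingEnd ℂ) (Sz w M u) := by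
      rw [Complex.mul_conj, Complex.normSq_eq_norm_sq]
    rw [Complex.ofReal_mul, h1]
    unfold Sz
    rw [map_sum, Finset.sum_mul_sum, Finset.mul_sum]
    refine Finset.sum_congr rfl fun m hm => ?_
    rw [Finset.mul_sum]
    refine Finset.sum_congr rfl fun n hn => ?_
    have h2 := Pool.Agent.LDH.INT_E m n (hpos m hm) (hpos n hn) u
    rw [map_mul, Complex.conj_ofReal, hL, ← h2]
    push_cast
    ring
  have hgi := fun m n : ℕ => (Pool.Agent.LDH.INT_gauss G t (L m n) hG).1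
  have hintC : Integrable (fun u : ℝ => ((Real.exp (-((u - t) / G) ^ 2) * ‖Sz w M u‖ ^ 2 : ℝ) : ℂ)) := by
    have h1 : (fun u : ℝ => ((Real.exp (-((u - t) / G) ^ 2) * ‖Sz w M u‖ ^ 2 : ℝ) : ℂ)) = _ :=
      funext hexp
    rw [h1]
    refine integrable_finsetSum _ fun m _ => integrable_finsetSum _ fun n _ => ?_
    exact (hgi m n).const_mul _
  have h1 := hintC.re
  exact h1

theorem SBG_FG (w : ℝ → ℝ) (M G t : ℝ) (hG : 0 < G) :
    ∫ u : ℝ, Real.exp (-((u - t) / G) ^ 2) * ‖Sz w M u‖ ^ 2 = G * FG w M G t := by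
  unfold FG
  rw [← integral_add_left_eq_self (fun u : ℝ => Real.exp (-((u - t) / G) ^ 2) * ‖Sz w M u‖ ^ 2) t]
  have h1 : ∀ u : ℝ, Real.exp (-((t + u - t) / G) ^ 2) * ‖Sz w M (t + u)‖ ^ 2 =
      Real.exp (-(u / G) ^ 2) * ‖Sz w M (t + u)‖ ^ 2 := by
    intro u
    rw [add_sub_cancel_left]
  rw [← mul_assoc, mul_one_div_cancel hG.ne', one_mul]
  exact integral_congr_ae (Filter.Eventually.of_forall h1)

theorem SBG : SBG_stmt := by
  refine ⟨30, by norm_num, ?_⟩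
  intro w M H t B W hw hM hH hB hW hsep hlarge
  have hH0 : (0 : ℝ) < H := by linarith
  have hM0 : (0 : ℝ) < M := by linarith
  have hi1 := SBG_int w M H t hH0
  have hi2 := SBG_int (fun x => w x * Real.log x) M H t hH0
  have hF1 := SBG_FG w M H t hH0
  have hF2 := SBG_FG (fun x => w x * Real.log x) M H t hH0
  simp only [SBG_norm _ M _ hM0] at hi1 hi2 hF1 hF2 hlarge
  obtain ⟨P, hPdef⟩ : ∃ P : ℝ → ℝ, P = fun u => ‖SBG_G w M u‖ ^ 2 := ⟨_, rfl⟩
  obtain ⟨Q, hQdef⟩ : ∃ Q : ℝ → ℝ, Q = fun u => ‖SBG_G (fun x => w x * Real.log x) M u‖ ^ 2 := ⟨_, rfl⟩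
  have hP : Continuous P := by rw [hPdef]; exact (SBG_cont w M).norm.pow 2
  have hQ : Continuous Q := by rw [hQdef]; exact (SBG_cont _ M).norm.pow 2
  have hP0 : ∀ u, 0 ≤ P u := fun u => by rw [hPdef]; positivity
  have hQ0 : ∀ u, 0 ≤ Q u := fun u => by rw [hQdef]; positivity
  have hD : ∀ u, ∃ D : ℝ, HasDerivAt P D u ∧ |D| ≤ P u + Q u := fun u => by
    rw [hPdef, hQdef]; exact SBG_derF w M u
  have hi1' : Integrable (fun u : ℝ => Real.exp (-((u - t) / H) ^ 2) * P u) := by rw [hPdef]; exact hi1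
  have hi2' : Integrable (fun u : ℝ => Real.exp (-((u - t) / H) ^ 2) * Q u) := by rw [hQdef]; exact hi2
  have hgoal : ∑ s ∈ W, P s ≤ 30 * ((∫ u : ℝ, Real.exp (-((u - t) / H) ^ 2) * P u) +
      ∫ u : ℝ, Real.exp (-((u - t) / H) ^ 2) * Q u) := by
    have hf : Integrable (fun u : ℝ => 30 * (Real.exp (-((u - t) / H) ^ 2) * P u) +
        10 * (Real.exp (-((u - t) / H) ^ 2) * Q u)) := (hi1'.const_mul 30).add (hi2'.const_mul 10)
    have hf0 : ∀ u, 0 ≤ 30 * (Real.exp (-((u - t) / H) ^ 2) * P u) +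
        10 * (Real.exp (-((u - t) / H) ^ 2) * Q u) := fun u => by
      have := hP0 u
      have := hQ0 u
      positivity
    have h1 : ∀ s ∈ W, P s ≤ ∫ u in Set.Ioc (s - 1 / 2) s, (30 * (Real.exp (-((u - t) / H) ^ 2) * P u) +
        10 * (Real.exp (-((u - t) / H) ^ 2) * Q u)) := by
      intro s hs
      have h2 := Pool.Agent.LDH.SOB_gal P Q hP hQ hP0 hD s
      rw [intervalIntegral.integral_of_le (by linarith)] at h2
      refine h2.trans ?_
      have h3 : IntervalIntegrable (fun u => 3 * P u + Q u) volume (s - 1 / 2) s :=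
        ((continuous_const.mul hP).add hQ).intervalIntegrable _ _
      rw [intervalIntegrable_iff_integrableOn_Ioc_of_le (by linarith)] at h3
      refine setIntegral_mono_on h3 hf.integrableOn measurableSet_Ioc fun u hu => ?_
      have h4 : |s - t| ≤ H := hW s hs
      have h5 : |u - t| ≤ 3 / 2 * H := by
        rw [abs_le] at h4 ⊢
        constructor
        · linarith [hu.1, h4.1]
        · linarith [hu.2, h4.2]
      have h6 : (1 : ℝ) / 10 ≤ Real.exp (-((u - t) / H) ^ 2) := by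
        refine Pool.Agent.LDH.SOB_exp.trans (Real.exp_le_exp.2 ?_)
        have h7 : |(u - t) / H| ≤ 3 / 2 := by
          rw [abs_div, abs_of_pos hH0, div_le_iff₀ hH0]
          exact h5
        have h8 : ((u - t) / H) ^ 2 ≤ (3 / 2) ^ 2 := by
          rw [← sq_abs]
          exact pow_le_pow_left₀ (abs_nonneg _) h7 2
        norm_num at h8
        linarith
      have h9 := mul_le_mul_of_nonneg_right h6 (hP0 u)
      have h10 := mul_le_mul_of_nonneg_right h6 (hQ0 u)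
      linarith
    calc ∑ s ∈ W, P s ≤ ∑ s ∈ W, ∫ u in Set.Ioc (s - 1 / 2) s,
          (30 * (Real.exp (-((u - t) / H) ^ 2) * P u) + 10 * (Real.exp (-((u - t) / H) ^ 2) * Q u)) :=
          Finset.sum_le_sum h1
      _ = ∫ u in ⋃ s ∈ W, Set.Ioc (s - 1 / 2) s,
          (30 * (Real.exp (-((u - t) / H) ^ 2) * P u) + 10 * (Real.exp (-((u - t) / H) ^ 2) * Q u)) := by
          rw [integral_biUnion_finset W (fun s _ => measurableSet_Ioc) ?_ (fun s _ => hf.integrableOn)]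
          intro s hs s' hs' hne
          have h11 := hsep s hs s' hs' hne
          rw [Function.onFun, Set.disjoint_left]
          rintro u ⟨hu1, hu2⟩ ⟨hu3, hu4⟩
          rcases le_abs.1 h11 with h | h <;> linarith
      _ ≤ ∫ u : ℝ, (30 * (Real.exp (-((u - t) / H) ^ 2) * P u) + 10 * (Real.exp (-((u - t) / H) ^ 2) * Q u)) :=
          setIntegral_le_integral hf (Filter.Eventually.of_forall hf0)
      _ = 30 * (∫ u : ℝ, Real.exp (-((u - t) / H) ^ 2) * P u) +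
          10 * ∫ u : ℝ, Real.exp (-((u - t) / H) ^ 2) * Q u := by
          rw [integral_add (hi1'.const_mul 30) (hi2'.const_mul 10), integral_const_mul, integral_const_mul]
      _ ≤ 30 * ((∫ u : ℝ, Real.exp (-((u - t) / H) ^ 2) * P u) +
          ∫ u : ℝ, Real.exp (-((u - t) / H) ^ 2) * Q u) := by
          have h12 : 0 ≤ ∫ u : ℝ, Real.exp (-((u - t) / H) ^ 2) * Q u :=
            integral_nonneg fun u => mul_nonneg (Real.exp_pos _).le (hQ0 u)
          linarith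
  have hlow : (W.card : ℝ) * B ^ 2 ≤ ∑ s ∈ W, P s := by
    rw [← nsmul_eq_mul]
    refine Finset.card_nsmul_le_sum W P (B ^ 2) fun s hs => ?_
    rw [hPdef]
    exact pow_le_pow_left₀ hB (hlarge s hs) 2
  rw [hPdef, hQdef] at hgoal
  rw [hF1, hF2] at hgoal
  rw [hPdef] at hlow
  calc (W.card : ℝ) * B ^ 2 ≤ 30 * (H * FG w M H t + H * FG (fun x => w x * Real.log x) M H t) :=
        hlow.trans hgoal
    _ = _ := by ring

end Pool.Agent.BEY
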