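import Pool.Agent.helper5.BEY.SpecA
set_option autoImplicit false
open Complex MeasureTheory
namespace Pool.Agent.BEY

theorem WLG_bump : ∃ l : ℝ → ℝ, ContDiff ℝ 3 l ∧ (∀ x ∈ Set.Icc (1 : ℝ) 2, l x = Real.log x) ∧
    ∃ L : ℝ, 0 ≤ L ∧ ∀ n : ℕ, n ≤ 3 → ∀ x, ‖iteratedFDeriv ℝ n l x‖ ≤ L := by
  obtain ⟨χ, hχ⟩ : ∃ χ : ContDiffBump (3 / 2 : ℝ), χ.rIn = 1 / 2 ∧ χ.rOut = 1 :=
    ⟨⟨1 / 2, 1, by norm_num, by norm_num⟩, rfl, rfl⟩
  have hsm : ContDiff ℝ 3 (fun x => χ x * Real.log x) := by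
    rw [contDiff_iff_contDiffAt]
    intro x
    rcases lt_or_ge x (1 / 2) with hx | hx
    · have h1 : (fun x => χ x * Real.log x) =ᶠ[nhds x] fun _ => 0 := by
        filter_upwards [Iio_mem_nhds hx] with y hy
        have h2 : χ y = 0 := by
          apply χ.zero_of_le_dist
          rw [hχ.2, Real.dist_eq]
          have : y < 1 / 2 := hy
          rw [abs_of_neg (by linarith)]
          linarith
        rw [h2, zero_mul]
      exact contDiffAt_const.congr_of_eventuallyEq h1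
    · exact χ.contDiffAt.mul (Real.contDiffAt_log.2 (by linarith))
  have hcs : HasCompactSupport (fun x => χ x * Real.log x) := χ.hasCompactSupport.mul_right
  have hb : ∀ n : ℕ, n ≤ 3 → ∃ C, ∀ x, ‖iteratedFDeriv ℝ n (fun x => χ x * Real.log x) x‖ ≤ C := by
    intro n hn
    exact Continuous.bounded_above_of_compact_support
      (hsm.continuous_iteratedFDeriv (by exact_mod_cast hn)) (hcs.iteratedFDeriv n)
  refine ⟨_, hsm, ?_, ?_⟩
  · intro x hx
    have h2 : χ x = 1 := by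
      apply χ.one_of_mem_closedBall
      rw [Metric.mem_closedBall, hχ.1, Real.dist_eq, abs_le]
      constructor
      · linarith [hx.1]
      · linarith [hx.2]
    show χ x * Real.log x = Real.log x
    rw [h2, one_mul]
  · choose! C hC using hb
    refine ⟨max (max |C 0| |C 1|) (max |C 2| |C 3|), by positivity, ?_⟩
    intro n hn x
    have h1 := (hC n hn x).trans (le_abs_self _)
    refine h1.trans ?_
    interval_cases n
    · exact (le_max_left _ _).trans (le_max_left _ _)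
    · exact (le_max_right _ _).trans (le_max_left _ _)
    · exact (le_max_left _ _).trans (le_max_right _ _)
    · exact (le_max_right _ _).trans (le_max_right _ _)

theorem WLG : WLG_stmt := by
  obtain ⟨l, hl, hll, L, hL0, hL⟩ := WLG_bump
  refine ⟨8 * L + 1, by linarith, ?_⟩
  intro w hw
  obtain ⟨hw1, hw2, hw3⟩ := hw
  have hK : 0 < 8 * L + 1 := by linarith
  have hfe : (fun x => w x * Real.log x / (8 * L + 1)) = fun x => w x * ((8 * L + 1)⁻¹ • l) x := by
    funext x
    rw [Pi.smul_apply, smul_eq_mul]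
    by_cases hx : x ∈ Set.Icc (1 : ℝ) 2
    · rw [hll x hx]
      field_simp
    · rw [hw2 x hx]
      simp
  have hwb : ∀ n : ℕ, n ≤ 3 → ∀ x, ‖iteratedFDeriv ℝ n w x‖ ≤ 1 := by
    intro n hn x
    rw [norm_iteratedFDeriv_eq_norm_iteratedDeriv, Real.norm_eq_abs]
    have h := hw3 x
    interval_cases n
    · rw [iteratedDeriv_zero]
      exact h.1
    · exact h.2.1
    · exact h.2.2.1
    · exact h.2.2.2
  have hlb : ∀ n : ℕ, n ≤ 3 → ∀ x, ‖iteratedFDeriv ℝ n ((8 * L + 1)⁻¹ • l) x‖ ≤ 1 / 8 := by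
    intro n hn x
    rw [iteratedFDeriv_const_smul_apply ((hl.of_le (by exact_mod_cast hn)).contDiffAt), norm_smul,
      Real.norm_eq_abs, abs_of_pos (by positivity)]
    have h := hL n hn x
    rw [inv_mul_le_iff₀ hK]
    linarith
  have hprod : ∀ n : ℕ, n ≤ 3 → ∀ x,
      ‖iteratedFDeriv ℝ n (fun x => w x * ((8 * L + 1)⁻¹ • l) x) x‖ ≤ 1 := by
    intro n hn x
    have h1 := norm_iteratedFDeriv_mul_le (N := 3) hw1 (hl.const_smul (8 * L + 1)⁻¹) x
      (n := n) (by exact_mod_cast hn)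
    refine h1.trans ?_
    have h2 : ∑ i ∈ Finset.range (n + 1), (n.choose i : ℝ) * ‖iteratedFDeriv ℝ i w x‖ *
        ‖iteratedFDeriv ℝ (n - i) ((8 * L + 1)⁻¹ • l) x‖ ≤
        ∑ i ∈ Finset.range (n + 1), (n.choose i : ℝ) * (1 / 8) := by
      refine Finset.sum_le_sum fun i hi => ?_
      rw [Finset.mem_range] at hi
      have h3 := hwb i (by omega) x
      have h4 := hlb (n - i) (by omega) x
      have h5 : (0 : ℝ) ≤ (n.choose i : ℝ) := by positivity
      calc (n.choose i : ℝ) * ‖iteratedFDeriv ℝ i w x‖ *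
          ‖iteratedFDeriv ℝ (n - i) ((8 * L + 1)⁻¹ • l) x‖
          ≤ (n.choose i : ℝ) * 1 * (1 / 8) := by
            apply mul_le_mul _ h4 (norm_nonneg _) (by positivity)
            exact mul_le_mul_of_nonneg_left h3 h5
        _ = _ := by ring
    refine h2.trans ?_
    rw [← Finset.sum_mul]
    have h6 : ∑ i ∈ Finset.range (n + 1), (n.choose i : ℝ) = 2 ^ n := by
      exact_mod_cast Nat.sum_range_choose n
    rw [h6]
    have h7 : (2 : ℝ) ^ n ≤ 2 ^ 3 := pow_le_pow_right₀ (by norm_num) hn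
    linarith
  refine ⟨?_, ?_, ?_⟩
  · rw [hfe]
    have hls : ContDiff ℝ 3 ((8 * L + 1)⁻¹ • l) := hl.const_smul (8 * L + 1)⁻¹
    exact hw1.mul hls
  · intro x hx
    show w x * Real.log x / (8 * L + 1) = 0
    rw [hw2 x hx]
    simp
  · intro x
    rw [hfe]
    have h0 := hprod 0 (by norm_num) x
    have h1 := hprod 1 (by norm_num) x
    have h2 := hprod 2 (by norm_num) x
    have h3 := hprod 3 (by norm_num) x
    rw [norm_iteratedFDeriv_eq_norm_iteratedDeriv, Real.norm_eq_abs] at h0 h1 h2 h3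
    rw [iteratedDeriv_zero] at h0
    exact ⟨h0, h1, h2, h3⟩

end Pool.Agent.BEY
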